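import Mathlib
import Pool.Agent.Q15.UnivRO

namespace Pool.Agent.Results.MP_49314d_al.NoUniversalCountable

/-- A group is right-orderable if it has a total order invariant under right multiplication. -/
def RightOrderable (G : Type*) [Group G] : Prop :=
  ∃ _ : LinearOrder G, ∀ x y z : G, x ≤ y → x * z ≤ y * z

/-- A group is bi-orderable if it has a total order invariant under multiplication on
both sides. -/
def BiOrderable (G : Type*) [Group G] : Prop :=
  ∃ _ : LinearOrder G, ∀ x y z : G, x ≤ y → x * z ≤ y * z ∧ z * x ≤ z * y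

/-- There is no universal countable right-orderable group. Indeed no countable group
contains an isomorphic copy of every 2-generator, centre-by-metabelian, bi-orderable group. -/
theorem result :
    (¬ ∃ (U : Type*) (_ : Group U), Countable U ∧ RightOrderable U ∧
      ∀ (G : Type) [Group G], Countable G → RightOrderable G →
        ∃ f : G →* U, Function.Injective f) ∧
    (∀ (U : Type*) [Group U] [Countable U],
      ∃ (G : Type) (_ : Group G), Countable G ∧ BiOrderable G ∧
        (∃ x y : G, Subgroup.closure {x, y} = ⊤) ∧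
        ⁅commutator G, commutator G⁆ ≤ Subgroup.center G ∧
        ¬ ∃ f : G →* U, Function.Injective f) := by
  have main : ∀ (U : Type _) [Group U] [Countable U],
      ∃ (G : Type) (_ : Group G), Countable G ∧ BiOrderable G ∧
        (∃ x y : G, Subgroup.closure {x, y} = ⊤) ∧
        ⁅commutator G, commutator G⁆ ≤ Subgroup.center G ∧
        ¬ ∃ f : G →* U, Function.Injective f := by
    intro U _ _
    obtain ⟨S, hS⟩ := Q15UnivRO.exists_not_embed U
    refine ⟨Q15UnivRO.G (Q15UnivRO.cS S), inferInstance, inferInstance, ?_, ?_, ?_, hS⟩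
    · refine ⟨inferInstance, ?_⟩
      intro x y z hxy
      rcases hxy.eq_or_lt with h | h
      · subst h; exact ⟨le_rfl, le_rfl⟩
      · exact ⟨(Q15UnivRO.mul_lt_right x y z h).le, (Q15UnivRO.mul_lt_left x y z h).le⟩
    · exact ⟨_, _, Q15UnivRO.closure_eq_top (Q15UnivRO.cS_one S)
        (Q15UnivRO.cS_neg S (-1) (by norm_num))⟩
    · exact Q15UnivRO.centre_by_metabelian
  refine ⟨?_, ?_⟩
  · rintro ⟨U, _, hU, -, h⟩
    obtain ⟨S, hS⟩ := Q15UnivRO.exists_not_embed U
    refine hS (h (Q15UnivRO.G (Q15UnivRO.cS S)) inferInstance ⟨inferInstance, ?_⟩)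
    intro x y z hxy
    rcases hxy.eq_or_lt with h | h
    · subst h; exact le_rfl
    · exact (Q15UnivRO.mul_lt_right x y z h).le
  · exact main

end Pool.Agent.Results.MP_49314d_al.NoUniversalCountable
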